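import Pool.Agent.H65.TK.NulSt

/-!
# Project TK (helper66), parts SMO and GEO
-/

set_option autoImplicit false

open MvPolynomial Height AdmissibleAbsValues

namespace Pool.Agent.H65.TK

open Pool.Agent.H66.TK

/-- NUL with `0 ≤ B` -/
def S_NUL0 : Prop :=
  ∀ (K : Type) [Field K] [NumberField K] (τ ι : Type) [Finite τ] [Finite ι]
    (f : ι → MvPolynomial τ K) (g : MvPolynomial τ K),
    (∀ z : τ → AlgebraicClosure K, (∀ i, aeval z (f i) = 0) → aeval z g = 0) →
    ∀ R : AbsoluteValue K ℝ → ℝ, Cst R →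
      ∃ (E : ℕ) (C : AbsoluteValue K ℝ → ℝ), Cst C ∧
        ∀ v : AbsoluteValue K ℝ, (v ∈ archAbsVal (K := K) ∨ v ∈ nonarchAbsVal (K := K)) →
          ∀ (z : τ → K) (B : ℝ), 0 ≤ B → (∀ j, v (z j) ≤ R v) → (∀ i, v (eval z (f i)) ≤ B) →
            v (eval z g) ^ E ≤ C v * B

section maps

variable {R S : Type} [CommRing R] [CommRing S] (φ : R →+* S)

theorem FF_map (a : Fin 3 → Fin 3 → R) (b : Fin 4 → Fin 4 → R) (w : R) (x y : Fin 2 → R) :
    φ (FF a b w x y) = FF (fun i j => φ (a i j)) (fun i j => φ (b i j)) (φ w)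
      (fun i => φ (x i)) (fun i => φ (y i)) := by
  simp only [FF, cub, ax, bx, q2, q3, map_add, map_mul, map_pow]

theorem Fw_map (a : Fin 3 → Fin 3 → R) (w : R) (x y : Fin 2 → R) :
    φ (Fw a w x y) = Fw (fun i j => φ (a i j)) (φ w) (fun i => φ (x i)) (fun i => φ (y i)) := by
  simp only [Fw, cw, ax, q2, map_add, map_mul, map_pow, map_ofNat]

theorem c0_map (a : Fin 3 → Fin 3 → R) (b : Fin 4 → Fin 4 → R) (w : R) (x y : Fin 2 → R) :
    φ (c0 (ax a y) (bx b y) w x) = c0 (ax (fun i j => φ (a i j)) (fun i => φ (y i)))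
      (bx (fun i j => φ (b i j)) (fun i => φ (y i))) (φ w) (fun i => φ (x i)) := by
  simp only [c0, ax, bx, q2, q3, map_add, map_mul, map_pow, map_ofNat]

theorem c1_map (a : Fin 3 → Fin 3 → R) (b : Fin 4 → Fin 4 → R) (w : R) (x y : Fin 2 → R) :
    φ (c1 (ax a y) (bx b y) w x) = c1 (ax (fun i j => φ (a i j)) (fun i => φ (y i)))
      (bx (fun i j => φ (b i j)) (fun i => φ (y i))) (φ w) (fun i => φ (x i)) := by
  simp only [c1, ax, bx, q2, q3, map_add, map_mul, map_pow, map_ofNat]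

theorem mm_map (a : Fin 3 → Fin 3 → R) (b : Fin 4 → Fin 4 → R) (w : R) (x y : Fin 2 → R)
    (u v : R) :
    φ (mm (ax a y) (bx b y) w x u v) = mm (ax (fun i j => φ (a i j)) (fun i => φ (y i)))
      (bx (fun i j => φ (b i j)) (fun i => φ (y i))) (φ w) (fun i => φ (x i)) (φ u) (φ v) := by
  simp only [mm, ax, bx, q2, q3, map_add, map_mul, map_pow, map_ofNat]

theorem nn_map (a : Fin 3 → Fin 3 → R) (b : Fin 4 → Fin 4 → R) (y : Fin 2 → R) (u v : R) :
    φ (nn (ax a y) (bx b y) u v) = nn (ax (fun i j => φ (a i j)) (fun i => φ (y i)))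
      (bx (fun i j => φ (b i j)) (fun i => φ (y i))) (φ u) (φ v) := by
  simp only [nn, ax, bx, q2, q3, map_add, map_mul, map_pow]

theorem vec2_map (p q : R) : (fun i => φ ((![p, q] : Fin 2 → R) i)) = ![φ p, φ q] := by
  funext i
  fin_cases i <;> rfl

end maps

variable {K : Type} [Field K]

/-- the polynomials of SMO -/
noncomputable def smP (a : Fin 3 → Fin 3 → K) (b : Fin 4 → Fin 4 → K) :
    Fin 6 → MvPolynomial (Fin 5) K :=
  ![FF (fun i j => C (a i j)) (fun i j => C (b i j)) (X 0) ![X 1, X 2] ![X 3, X 4],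
    Fw (fun i j => C (a i j)) (X 0) ![X 1, X 2] ![X 3, X 4],
    c0 (ax (fun i j => C (a i j)) ![X 3, X 4]) (bx (fun i j => C (b i j)) ![X 3, X 4]) (X 0)
      ![X 1, X 2],
    c1 (ax (fun i j => C (a i j)) ![X 3, X 4]) (bx (fun i j => C (b i j)) ![X 3, X 4]) (X 0)
      ![X 1, X 2],
    c0 (ax (tr (fun i j => C (a i j))) ![X 1, X 2]) (bx (tr (fun i j => C (b i j))) ![X 1, X 2])
      (X 0) ![X 3, X 4],
    c1 (ax (tr (fun i j => C (a i j))) ![X 1, X 2]) (bx (tr (fun i j => C (b i j))) ![X 1, X 2])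
      (X 0) ![X 3, X 4]]

theorem smP_hom {E : Type} [Field E] (φ : MvPolynomial (Fin 5) K →+* E) (ψ : K →+* E)
    (hφ : ∀ c, φ (C c) = ψ c) (a : Fin 3 → Fin 3 → K) (b : Fin 4 → Fin 4 → K) (i : Fin 6) :
    φ (smP a b i) = (![FF (ex ψ a) (ex ψ b) (φ (X 0)) ![φ (X 1), φ (X 2)] ![φ (X 3), φ (X 4)],
      Fw (ex ψ a) (φ (X 0)) ![φ (X 1), φ (X 2)] ![φ (X 3), φ (X 4)],
      c0 (ax (ex ψ a) ![φ (X 3), φ (X 4)]) (bx (ex ψ b) ![φ (X 3), φ (X 4)]) (φ (X 0))
        ![φ (X 1), φ (X 2)],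
      c1 (ax (ex ψ a) ![φ (X 3), φ (X 4)]) (bx (ex ψ b) ![φ (X 3), φ (X 4)]) (φ (X 0))
        ![φ (X 1), φ (X 2)],
      c0 (ax (tr (ex ψ a)) ![φ (X 1), φ (X 2)]) (bx (tr (ex ψ b)) ![φ (X 1), φ (X 2)])
        (φ (X 0)) ![φ (X 3), φ (X 4)],
      c1 (ax (tr (ex ψ a)) ![φ (X 1), φ (X 2)]) (bx (tr (ex ψ b)) ![φ (X 1), φ (X 2)])
        (φ (X 0)) ![φ (X 3), φ (X 4)]] : Fin 6 → E) i := by
  have ha : (fun i j => φ (C (a i j))) = ex ψ a := by
    funext i j
    exact hφ _
  have hb : (fun i j => φ (C (b i j))) = ex ψ b := by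
    funext i j
    exact hφ _
  have hta : (fun i j => φ (tr (fun i j => C (a i j)) i j)) = tr (ex ψ a) := by
    funext i j
    exact hφ _
  have htb : (fun i j => φ (tr (fun i j => C (b i j)) i j)) = tr (ex ψ b) := by
    funext i j
    exact hφ _
  fin_cases i
  · change φ (FF (fun i j => C (a i j)) (fun i j => C (b i j)) (X 0) ![X 1, X 2] ![X 3, X 4]) = _
    rw [FF_map, vec2_map, vec2_map, ha, hb]
    rfl
  · change φ (Fw (fun i j => C (a i j)) (X 0) ![X 1, X 2] ![X 3, X 4]) = _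
    rw [Fw_map, vec2_map, vec2_map, ha]
    rfl
  · change φ (c0 (ax (fun i j => C (a i j)) ![X 3, X 4]) (bx (fun i j => C (b i j)) ![X 3, X 4])
      (X 0) ![X 1, X 2]) = _
    rw [c0_map, vec2_map, vec2_map, ha, hb]
    rfl
  · change φ (c1 (ax (fun i j => C (a i j)) ![X 3, X 4]) (bx (fun i j => C (b i j)) ![X 3, X 4])
      (X 0) ![X 1, X 2]) = _
    rw [c1_map, vec2_map, vec2_map, ha, hb]
    rfl
  · change φ (c0 (ax (tr (fun i j => C (a i j))) ![X 1, X 2])
      (bx (tr (fun i j => C (b i j))) ![X 1, X 2]) (X 0) ![X 3, X 4]) = _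
    rw [c0_map, vec2_map, vec2_map, hta, htb]
    rfl
  · change φ (c1 (ax (tr (fun i j => C (a i j))) ![X 1, X 2])
      (bx (tr (fun i j => C (b i j))) ![X 1, X 2]) (X 0) ![X 3, X 4]) = _
    rw [c1_map, vec2_map, vec2_map, hta, htb]
    rfl

theorem vec2_eta {E : Type} (x : Fin 2 → E) : ![x 0, x 1] = x := by
  funext i
  fin_cases i <;> rfl

theorem nm_ne {v : AbsoluteValue K ℝ} {x : Fin 2 → K} (h : Nm v x) :
    ∃ i, v (x i) = 1 := h.2

theorem smo (h1 : S_NUL0) (h2 : S_BDW) : S_SMO := by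
  intro K _ _ a b hs
  obtain ⟨R, hR, hR'⟩ := h2 K a b
  have key : ∀ i j : Fin 2, ∃ C : AbsoluteValue K ℝ → ℝ, Cst C ∧
      ∀ v : AbsoluteValue K ℝ, (v ∈ archAbsVal (K := K) ∨ v ∈ nonarchAbsVal (K := K)) →
        ∀ (z : Fin 5 → K) (B : ℝ), 0 ≤ B → (∀ j, v (z j) ≤ R v) →
          (∀ i, v (eval z (smP a b i)) ≤ B) →
          v (![z 1, z 2] i * ![z 3, z 4] j) = 1 → 1 ≤ C v * B := by
    intro i j
    obtain ⟨E, C, hC, hC'⟩ := h1 K (Fin 5) (Fin 6) (smP a b)
      (![X 1, X 2] i * ![X 3, X 4] j) (by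
        intro z hz
        have hmap := smP_hom (aeval z : MvPolynomial (Fin 5) K →ₐ[K] AlgebraicClosure K).toRingHom
          (algebraMap K (AlgebraicClosure K)) (fun c => by simp) a b
        have hz' : ∀ i, (aeval z : MvPolynomial (Fin 5) K →ₐ[K] AlgebraicClosure K).toRingHom
          (smP a b i) = 0 := hz
        simp only [hz'] at hmap
        by_contra hne
        have e1 : aeval z (![X 1, X 2] i * ![X 3, X 4] j : MvPolynomial (Fin 5) K) =
            ![z 1, z 2] i * ![z 3, z 4] j := by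
          rw [map_mul]
          congr 1
          · fin_cases i <;> simp
          · fin_cases j <;> simp
        rw [e1] at hne
        have hx0 : (![z 1, z 2] : Fin 2 → AlgebraicClosure K) ≠ 0 := by
          intro h
          apply hne
          rw [h]
          simp
        have hy0 : (![z 3, z 4] : Fin 2 → AlgebraicClosure K) ≠ 0 := by
          intro h
          apply hne
          rw [h]
          simp
        have q : ∀ k, (aeval z : MvPolynomial (Fin 5) K →ₐ[K] AlgebraicClosure K).toRingHom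
          (X k) = z k := by
          intro k
          simp
        simp only [q] at hmap
        exact hs (z 0) _ _ hx0 hy0 (hmap 0).symm (hmap 1).symm (hmap 2).symm (hmap 3).symm
          (hmap 4).symm (hmap 5).symm) R hR
    refine ⟨C, hC, fun v hv z B hB hz hf hone => ?_⟩
    have h3 := hC' v hv z B hB hz hf
    have e1 : eval z (![X 1, X 2] i * ![X 3, X 4] j : MvPolynomial (Fin 5) K) =
        ![z 1, z 2] i * ![z 3, z 4] j := by
      rw [map_mul]
      congr 1
      · fin_cases i <;> simp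
      · fin_cases j <;> simp
    rw [e1, hone, one_pow] at h3
    exact h3
  choose C hC hC' using key
  refine ⟨fun v => (C 0 0 v * C 0 1 v) * (C 1 0 v * C 1 1 v),
    cst_mul (cst_mul (hC 0 0) (hC 0 1)) (cst_mul (hC 1 0) (hC 1 1)), ?_⟩
  intro v hv w x y B hx hy hF g1 g2 g3 g4 g5
  have hB : 0 ≤ B := (v.nonneg _).trans g1
  have hw : v w ≤ R v := hR' v hv w x y hx.1 hy.1 hF
  obtain ⟨i, hi⟩ := hx.2
  obtain ⟨j, hj⟩ := hy.2
  have h3 := hC' i j v hv ![w, x 0, x 1, y 0, y 1] B hB ?_ ?_ ?_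
  · have hle : C i j v ≤ (C 0 0 v * C 0 1 v) * (C 1 0 v * C 1 1 v) := by
      have p00 := (hC 0 0).one_le v
      have p01 := (hC 0 1).one_le v
      have p10 := (hC 1 0).one_le v
      have p11 := (hC 1 1).one_le v
      have q0 : 1 ≤ C 0 0 v * C 0 1 v := one_le_mul_of_one_le_of_one_le p00 p01
      have q1 : 1 ≤ C 1 0 v * C 1 1 v := one_le_mul_of_one_le_of_one_le p10 p11
      have r0 : C 0 0 v * C 0 1 v ≤ (C 0 0 v * C 0 1 v) * (C 1 0 v * C 1 1 v) :=
        le_mul_of_one_le_right (by linarith) q1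
      have r1 : C 1 0 v * C 1 1 v ≤ (C 0 0 v * C 0 1 v) * (C 1 0 v * C 1 1 v) :=
        le_mul_of_one_le_left (by linarith) q0
      fin_cases i <;> fin_cases j
      · exact (le_mul_of_one_le_right (zero_le_one.trans p00) p01).trans r0
      · exact (le_mul_of_one_le_left (zero_le_one.trans p01) p00).trans r0
      · exact (le_mul_of_one_le_right (zero_le_one.trans p10) p11).trans r1
      · exact (le_mul_of_one_le_left (zero_le_one.trans p11) p10).trans r1
    exact h3.trans (mul_le_mul_of_nonneg_right hle hB)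
  · intro k
    fin_cases k
    · exact hw
    · exact (hx.1 0).trans (hR.one_le v)
    · exact (hx.1 1).trans (hR.one_le v)
    · exact (hy.1 0).trans (hR.one_le v)
    · exact (hy.1 1).trans (hR.one_le v)
  · intro k
    have hmap := smP_hom (eval ![w, x 0, x 1, y 0, y 1] : MvPolynomial (Fin 5) K →+* K)
      (RingHom.id K) (fun c => by simp) a b k
    have q0 : eval ![w, x 0, x 1, y 0, y 1] (X 0 : MvPolynomial (Fin 5) K) = w := by simp
    have q1 : eval ![w, x 0, x 1, y 0, y 1] (X 1 : MvPolynomial (Fin 5) K) = x 0 := by simp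
    have q2 : eval ![w, x 0, x 1, y 0, y 1] (X 2 : MvPolynomial (Fin 5) K) = x 1 := by simp
    have q3 : eval ![w, x 0, x 1, y 0, y 1] (X 3 : MvPolynomial (Fin 5) K) = y 0 := by simp
    have q4 : eval ![w, x 0, x 1, y 0, y 1] (X 4 : MvPolynomial (Fin 5) K) = y 1 := by simp
    rw [q0, q1, q2, q3, q4] at hmap
    have ea : ex (RingHom.id K) a = a := rfl
    have eb : ex (RingHom.id K) b = b := rfl
    rw [ea, eb] at hmap
    rw [hmap, vec2_eta, vec2_eta]
    fin_cases k
    · change v (FF a b w x y) ≤ B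
      rw [hF, map_zero]
      exact hB
    · exact g1
    · exact g2
    · exact g3
    · exact g4
    · exact g5
  · have e1 : (![(![w, x 0, x 1, y 0, y 1] : Fin 5 → K) 1, (![w, x 0, x 1, y 0, y 1] :
        Fin 5 → K) 2] : Fin 2 → K) = x := by
      funext i
      fin_cases i <;> rfl
    have e2 : (![(![w, x 0, x 1, y 0, y 1] : Fin 5 → K) 3, (![w, x 0, x 1, y 0, y 1] :
        Fin 5 → K) 4] : Fin 2 → K) = y := by
      funext i
      fin_cases i <;> rfl
    rw [e1, e2, map_mul, hi, hj, one_mul]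

/-! ### GEO -/

/-- the polynomials of GEO in the variables `w, t, y0, y1, u, v` -/
noncomputable def gpP (a : Fin 3 → Fin 3 → K) (b : Fin 4 → Fin 4 → K) :
    Fin 4 → MvPolynomial (Fin 6) K :=
  ![FF (fun i j => C (a i j)) (fun i j => C (b i j)) (X 0) ![1, X 1] ![X 2, X 3],
    Fw (fun i j => C (a i j)) (X 0) ![1, X 1] ![X 2, X 3] * X 4 +
      c1 (ax (fun i j => C (a i j)) ![X 2, X 3]) (bx (fun i j => C (b i j)) ![X 2, X 3]) (X 0)
        ![1, X 1] * X 5,
    mm (ax (fun i j => C (a i j)) ![X 2, X 3]) (bx (fun i j => C (b i j)) ![X 2, X 3]) (X 0)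
      ![1, X 1] (X 4) (X 5),
    nn (ax (fun i j => C (a i j)) ![X 2, X 3]) (bx (fun i j => C (b i j)) ![X 2, X 3]) (X 4)
      (X 5)]

theorem gpP_hom {E : Type} [Field E] (φ : MvPolynomial (Fin 6) K →+* E) (ψ : K →+* E)
    (hφ : ∀ c, φ (C c) = ψ c) (a : Fin 3 → Fin 3 → K) (b : Fin 4 → Fin 4 → K) (i : Fin 4) :
    φ (gpP a b i) = (![FF (ex ψ a) (ex ψ b) (φ (X 0)) ![1, φ (X 1)] ![φ (X 2), φ (X 3)],
      Fw (ex ψ a) (φ (X 0)) ![1, φ (X 1)] ![φ (X 2), φ (X 3)] * φ (X 4) +
        c1 (ax (ex ψ a) ![φ (X 2), φ (X 3)]) (bx (ex ψ b) ![φ (X 2), φ (X 3)]) (φ (X 0))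
        ![1, φ (X 1)] * φ (X 5),
      mm (ax (ex ψ a) ![φ (X 2), φ (X 3)]) (bx (ex ψ b) ![φ (X 2), φ (X 3)]) (φ (X 0))
        ![1, φ (X 1)] (φ (X 4)) (φ (X 5)),
      nn (ax (ex ψ a) ![φ (X 2), φ (X 3)]) (bx (ex ψ b) ![φ (X 2), φ (X 3)])
        (φ (X 4)) (φ (X 5))] : Fin 4 → E) i := by
  have ha : (fun i j => φ (C (a i j))) = ex ψ a := by
    funext i j
    exact hφ _
  have hb : (fun i j => φ (C (b i j))) = ex ψ b := by
    funext i j
    exact hφ _
  fin_cases i
  · change φ (FF (fun i j => C (a i j)) (fun i j => C (b i j)) (X 0) ![1, X 1] ![X 2, X 3]) = _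
    rw [FF_map, vec2_map, vec2_map, ha, hb, map_one]
    rfl
  · change φ (Fw (fun i j => C (a i j)) (X 0) ![1, X 1] ![X 2, X 3] * X 4 +
      c1 (ax (fun i j => C (a i j)) ![X 2, X 3]) (bx (fun i j => C (b i j)) ![X 2, X 3]) (X 0)
        ![1, X 1] * X 5) = _
    rw [map_add, map_mul, map_mul, Fw_map, c1_map, vec2_map, vec2_map, ha, hb, map_one]
    rfl
  · change φ (mm (ax (fun i j => C (a i j)) ![X 2, X 3]) (bx (fun i j => C (b i j)) ![X 2, X 3])
      (X 0) ![1, X 1] (X 4) (X 5)) = _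
    rw [mm_map, vec2_map, vec2_map, ha, hb, map_one]
    rfl
  · change φ (nn (ax (fun i j => C (a i j)) ![X 2, X 3]) (bx (fun i j => C (b i j)) ![X 2, X 3])
      (X 4) (X 5)) = _
    rw [nn_map, vec2_map, ha, hb]
    rfl

/-- the cubic along a direction -/
theorem cub_dir {R : Type} [CommRing R] (α : Fin 3 → R) (β : Fin 4 → R) (w u v l m s : R)
    (x : Fin 2 → R) :
    cub α β (s * w + l * u) ![s * x 0, s * x 1 + l * v] =
      s ^ 3 * cub α β w x + s ^ 2 * l * (cw α w x * u + c1 α β w x * v) +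
        s * l ^ 2 * mm α β w x u v + l ^ 3 * nn α β u v + m * 0 := by
  simp only [cub, q2, q3, cw, c1, mm, nn, Matrix.cons_val_zero, Matrix.cons_val_one]
  ring

/-- a common zero gives a line -/
theorem no_line_zero {E : Type} [Field E] (α : Fin 3 → E) (β : Fin 4 → E) (w t u v : E)
    (h1 : cub α β w ![1, t] = 0) (h2 : cw α w ![1, t] * u + c1 α β w ![1, t] * v = 0)
    (h3 : mm α β w ![1, t] u v = 0) (h4 : nn α β u v = 0)
    (hn : ∀ l m : E, ∃ x : Fin 2 → E, cub α β (l * x 0 + m * x 1) x ≠ 0) : u = 0 ∧ v = 0 := by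
  have hv : v = 0 := by
    by_contra hv
    obtain ⟨x, hx⟩ := hn (w - t * (u / v)) (u / v)
    apply hx
    have h5 := cub_dir α β w u v ((x 1 - t * x 0) / v) 0 (x 0) ![1, t]
    rw [h1, h2, h3, h4] at h5
    simp only [mul_zero, add_zero] at h5
    rw [← h5]
    congr 1
    · field_simp
      ring
    · funext i
      fin_cases i
      · simp
      · simp only [Fin.mk_one, Matrix.cons_val_one, Matrix.cons_val_fin_one]
        field_simp
        ring
  refine ⟨?_, hv⟩
  unfold nn at h4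
  rw [hv] at h4
  have : u ^ 3 = 0 := by
    linear_combination h4
  exact pow_eq_zero_iff (by norm_num) |>.1 this

theorem geo (h1 : S_NUL0) (h2 : S_BDW) : S_GEO := by
  intro K _ _ a b hs
  obtain ⟨R, hR, hR'⟩ := h2 K a b
  have key : ∀ i j : Fin 2, ∃ C : AbsoluteValue K ℝ → ℝ, Cst C ∧
      ∀ v : AbsoluteValue K ℝ, (v ∈ archAbsVal (K := K) ∨ v ∈ nonarchAbsVal (K := K)) →
        ∀ (z : Fin 6 → K) (B : ℝ), 0 ≤ B → (∀ j, v (z j) ≤ R v) →
          (∀ i, v (eval z (gpP a b i)) ≤ B) →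
          v (![z 2, z 3] i * ![z 4, z 5] j) = 1 → 1 ≤ C v * B := by
    intro i j
    obtain ⟨E, C, hC, hC'⟩ := h1 K (Fin 6) (Fin 4) (gpP a b)
      (![X 2, X 3] i * ![X 4, X 5] j) (by
        intro z hz
        have hmap := gpP_hom (aeval z : MvPolynomial (Fin 6) K →ₐ[K] AlgebraicClosure K).toRingHom
          (algebraMap K (AlgebraicClosure K)) (fun c => by simp) a b
        have hz' : ∀ i, (aeval z : MvPolynomial (Fin 6) K →ₐ[K] AlgebraicClosure K).toRingHom
          (gpP a b i) = 0 := hz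
        simp only [hz'] at hmap
        by_contra hne
        have e1 : aeval z (![X 2, X 3] i * ![X 4, X 5] j : MvPolynomial (Fin 6) K) =
            ![z 2, z 3] i * ![z 4, z 5] j := by
          rw [map_mul]
          congr 1
          · fin_cases i <;> simp
          · fin_cases j <;> simp
        rw [e1] at hne
        have hy0 : (![z 2, z 3] : Fin 2 → AlgebraicClosure K) ≠ 0 := by
          intro h
          apply hne
          rw [h]
          simp
        have q : ∀ k, (aeval z : MvPolynomial (Fin 6) K →ₐ[K] AlgebraicClosure K).toRingHom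
          (X k) = z k := by
          intro k
          simp
        simp only [q] at hmap
        have h5 := no_line_zero _ _ (z 0) (z 1) (z 4) (z 5) (hmap 0).symm (hmap 1).symm
          (hmap 2).symm (hmap 3).symm (hs _ hy0)
        apply hne
        have h6 : ![z 4, z 5] j = 0 := by
          fin_cases j
          · exact h5.1
          · exact h5.2
        rw [h6, mul_zero]) R hR
    refine ⟨C, hC, fun v hv z B hB hz hf hone => ?_⟩
    have h3 := hC' v hv z B hB hz hf
    have e1 : eval z (![X 2, X 3] i * ![X 4, X 5] j : MvPolynomial (Fin 6) K) =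
        ![z 2, z 3] i * ![z 4, z 5] j := by
      rw [map_mul]
      congr 1
      · fin_cases i <;> simp
      · fin_cases j <;> simp
    rw [e1, hone, one_pow] at h3
    exact h3
  choose C hC hC' using key
  -- bounds for the derivatives
  obtain ⟨G1, hG1, hG1'⟩ := poly_bd hR
    (Fw (fun i j => MvPolynomial.C (a i j)) (X 0) ![1, X 1] ![X 2, X 3] : MvPolynomial (Fin 4) K)
  obtain ⟨G2, hG2, hG2'⟩ := poly_bd hR
    (c1 (ax (fun i j => MvPolynomial.C (a i j)) ![X 2, X 3])
      (bx (fun i j => MvPolynomial.C (b i j)) ![X 2, X 3]) (X 0) ![1, X 1] :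
      MvPolynomial (Fin 4) K)
  refine ⟨fun v => ((C 0 0 v * C 0 1 v) * (C 1 0 v * C 1 1 v)) * (G1 v * G2 v),
    cst_mul (cst_mul (cst_mul (hC 0 0) (hC 0 1)) (cst_mul (hC 1 0) (hC 1 1)))
      (cst_mul hG1 hG2), ?_⟩
  intro v hv w t y ht hy hF
  obtain ⟨P, hP⟩ : ∃ P, P = Fw a w ![1, t] y := ⟨_, rfl⟩
  obtain ⟨Q, hQ⟩ : ∃ Q, Q = c1 (ax a y) (bx b y) w ![1, t] := ⟨_, rfl⟩
  have hPc : cw (ax a y) w ![1, t] = P := hP.symm
  have hD : Dx a b w ![1, t] y = mm (ax a y) (bx b y) w ![1, t] (-Q) P := by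
    rw [hQ, hP]
    rfl
  have hN : Nx a b w ![1, t] y = nn (ax a y) (bx b y) (-Q) P := by
    rw [hQ, hP]
    rfl
  rw [hPc, ← hQ]
  have hw : v w ≤ R v := by
    refine hR' v hv w ![1, t] y ?_ hy.1 hF
    intro i
    fin_cases i
    · simp
    · exact ht
  have hR1 := hR.one_le v
  have hz4 : ∀ j, v ((![w, t, y 0, y 1] : Fin 4 → K) j) ≤ R v := by
    intro j
    fin_cases j
    · exact hw
    · exact ht.trans hR1
    · exact (hy.1 0).trans hR1
    · exact (hy.1 1).trans hR1
  have hPb : v P ≤ G1 v := by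
    have h3 := hG1' v ![w, t, y 0, y 1] hz4
    rw [Fw_map, vec2_map, vec2_map, map_one] at h3
    simp only [eval_C, eval_X] at h3
    have e2 : (![(![w, t, y 0, y 1] : Fin 4 → K) 2, (![w, t, y 0, y 1] :
        Fin 4 → K) 3] : Fin 2 → K) = y := by
      funext i
      fin_cases i <;> rfl
    rw [e2] at h3
    rw [hP]
    exact h3
  have hQb : v Q ≤ G2 v := by
    have h3 := hG2' v ![w, t, y 0, y 1] hz4
    rw [c1_map, vec2_map, vec2_map, map_one] at h3
    simp only [eval_C, eval_X] at h3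
    have e2 : (![(![w, t, y 0, y 1] : Fin 4 → K) 2, (![w, t, y 0, y 1] :
        Fin 4 → K) 3] : Fin 2 → K) = y := by
      funext i
      fin_cases i <;> rfl
    rw [e2] at h3
    rw [hQ]
    exact h3
  obtain ⟨G, hG⟩ : ∃ G, G = max (v P) (v Q) := ⟨_, rfl⟩
  rw [← hG]
  have hGb : G ≤ G1 v * G2 v := by
    have g1 := hG1.one_le v
    have g2 := hG2.one_le v
    rw [hG]
    apply max_le
    · exact hPb.trans (le_mul_of_one_le_right (zero_le_one.trans g1) g2)
    · exact hQb.trans (le_mul_of_one_le_left (zero_le_one.trans g2) g1)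
  have hG12 : 1 ≤ G1 v * G2 v := one_le_mul_of_one_le_of_one_le (hG1.one_le v) (hG2.one_le v)
  have hG0 : 0 ≤ G := by
    rw [hG]
    exact (v.nonneg P).trans (le_max_left _ _)
  obtain ⟨T, hT⟩ : ∃ T, T = (C 0 0 v * C 0 1 v) * (C 1 0 v * C 1 1 v) := ⟨_, rfl⟩
  have p00 := (hC 0 0).one_le v
  have p01 := (hC 0 1).one_le v
  have p10 := (hC 1 0).one_le v
  have p11 := (hC 1 1).one_le v
  have q0 : 1 ≤ C 0 0 v * C 0 1 v := one_le_mul_of_one_le_of_one_le p00 p01
  have q1 : 1 ≤ C 1 0 v * C 1 1 v := one_le_mul_of_one_le_of_one_le p10 p11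
  have hT1 : 1 ≤ T := by
    rw [hT]
    exact one_le_mul_of_one_le_of_one_le q0 q1
  have hle : ∀ i j, C i j v ≤ T := by
    intro i j
    rw [hT]
    have r0 : C 0 0 v * C 0 1 v ≤ (C 0 0 v * C 0 1 v) * (C 1 0 v * C 1 1 v) :=
      le_mul_of_one_le_right (by linarith) q1
    have r1 : C 1 0 v * C 1 1 v ≤ (C 0 0 v * C 0 1 v) * (C 1 0 v * C 1 1 v) :=
      le_mul_of_one_le_left (by linarith) q0
    fin_cases i <;> fin_cases j
    · exact (le_mul_of_one_le_right (zero_le_one.trans p00) p01).trans r0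
    · exact (le_mul_of_one_le_left (zero_le_one.trans p01) p00).trans r0
    · exact (le_mul_of_one_le_right (zero_le_one.trans p10) p11).trans r1
    · exact (le_mul_of_one_le_left (zero_le_one.trans p11) p10).trans r1
  beta_reduce
  rw [← hT]
  have hD0 : 0 ≤ max (v (Dx a b w ![1, t] y)) (v (Nx a b w ![1, t] y)) :=
    (v.nonneg _).trans (le_max_left _ _)
  rcases hG0.eq_or_lt with hG0 | hGpos
  · rw [← hG0]
    have : (0 : ℝ) ^ 3 = 0 := by norm_num
    rw [this]
    positivity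
  · -- normalisation
    obtain ⟨κ, hκ, k, hk⟩ : ∃ κ : K, v κ = G ∧ ∃ k : Fin 2, ![-Q, P] k = κ := by
      rcases max_choice (v P) (v Q) with h | h
      · exact ⟨P, by rw [hG, h], 1, rfl⟩
      · exact ⟨-Q, by rw [hG, h, v.map_neg], 0, rfl⟩
    have hκ0 : κ ≠ 0 := by
      rintro rfl
      rw [map_zero] at hκ
      linarith
    obtain ⟨i, hi⟩ := hy.2
    have hB0 : 0 ≤ max (v (Dx a b w ![1, t] y) / G ^ 2) (v (Nx a b w ![1, t] y) / G ^ 3) :=
      (by positivity : 0 ≤ v (Dx a b w ![1, t] y) / G ^ 2).trans (le_max_left _ _)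
    have hub : v (-Q / κ) ≤ 1 := by
      rw [map_div₀, v.map_neg, hκ, div_le_one hGpos, hG]
      exact le_max_right _ _
    have hvb : v (P / κ) ≤ 1 := by
      rw [map_div₀, hκ, div_le_one hGpos, hG]
      exact le_max_left _ _
    have h3 := hC' i k v hv ![w, t, y 0, y 1, -Q / κ, P / κ]
      (max (v (Dx a b w ![1, t] y) / G ^ 2) (v (Nx a b w ![1, t] y) / G ^ 3)) hB0 ?_ ?_ ?_
    · -- conclusion
      obtain ⟨d, hd⟩ : ∃ d, d = v (Dx a b w ![1, t] y) := ⟨_, rfl⟩
      obtain ⟨e, he⟩ : ∃ e, e = v (Nx a b w ![1, t] y) := ⟨_, rfl⟩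
      rw [← hd, ← he] at h3 hD0 ⊢
      have hd0 : 0 ≤ d := by rw [hd]; exact v.nonneg _
      have he0 : 0 ≤ e := by rw [he]; exact v.nonneg _
      rw [← hd, ← he] at hB0
      have h4 : 1 ≤ T * max (d / G ^ 2) (e / G ^ 3) :=
        h3.trans (mul_le_mul_of_nonneg_right (hle i k) hB0)
      have h5 : max (d / G ^ 2) (e / G ^ 3) * G ^ 3 ≤ (G1 v * G2 v) * max d e := by
        rw [max_mul_of_nonneg _ _ (by positivity)]
        apply max_le
        · have : d / G ^ 2 * G ^ 3 = G * d := by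
            field_simp
          rw [this]
          exact mul_le_mul hGb (le_max_left _ _) hd0 (by linarith)
        · have : e / G ^ 3 * G ^ 3 = 1 * e := by
            field_simp
          rw [this]
          exact mul_le_mul hG12 (le_max_right _ _) he0 (by linarith)
      calc G ^ 3 = 1 * G ^ 3 := (one_mul _).symm
        _ ≤ (T * max (d / G ^ 2) (e / G ^ 3)) * G ^ 3 :=
          mul_le_mul_of_nonneg_right h4 (by positivity)
        _ = T * (max (d / G ^ 2) (e / G ^ 3) * G ^ 3) := by ring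
        _ ≤ T * ((G1 v * G2 v) * max d e) := mul_le_mul_of_nonneg_left h5 (by linarith)
        _ = T * (G1 v * G2 v) * max d e := by ring
    · intro j
      fin_cases j
      · exact hw
      · exact ht.trans hR1
      · exact (hy.1 0).trans hR1
      · exact (hy.1 1).trans hR1
      · exact hub.trans hR1
      · exact hvb.trans hR1
    · intro j
      have hmap := gpP_hom (eval ![w, t, y 0, y 1, -Q / κ, P / κ] :
        MvPolynomial (Fin 6) K →+* K) (RingHom.id K) (fun c => by simp) a b j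
      have q0 : eval ![w, t, y 0, y 1, -Q / κ, P / κ] (X 0 : MvPolynomial (Fin 6) K) = w := by
        simp
      have q1 : eval ![w, t, y 0, y 1, -Q / κ, P / κ] (X 1 : MvPolynomial (Fin 6) K) = t := by
        simp
      have q2 : eval ![w, t, y 0, y 1, -Q / κ, P / κ] (X 2 : MvPolynomial (Fin 6) K) = y 0 := by
        simp
      have q3 : eval ![w, t, y 0, y 1, -Q / κ, P / κ] (X 3 : MvPolynomial (Fin 6) K) = y 1 := by
        simp
      have q4 : eval ![w, t, y 0, y 1, -Q / κ, P / κ] (X 4 : MvPolynomial (Fin 6) K) =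
          -Q / κ := by
        simp
      have q5 : eval ![w, t, y 0, y 1, -Q / κ, P / κ] (X 5 : MvPolynomial (Fin 6) K) =
          P / κ := by
        simp
      rw [q0, q1, q2, q3, q4, q5] at hmap
      have ea : ex (RingHom.id K) a = a := rfl
      have eb : ex (RingHom.id K) b = b := rfl
      rw [ea, eb] at hmap
      rw [hmap, vec2_eta]
      fin_cases j
      · change v (FF a b w ![1, t] y) ≤ _
        rw [hF, map_zero]
        exact hB0
      · change v (Fw a w ![1, t] y * (-Q / κ) + c1 (ax a y) (bx b y) w ![1, t] * (P / κ)) ≤ _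
        rw [← hP, ← hQ]
        have : P * (-Q / κ) + Q * (P / κ) = 0 := by ring
        rw [this, map_zero]
        exact hB0
      · change v (mm (ax a y) (bx b y) w ![1, t] (-Q / κ) (P / κ)) ≤ _
        have : mm (ax a y) (bx b y) w ![1, t] (-Q / κ) (P / κ) =
            Dx a b w ![1, t] y / κ ^ 2 := by
          rw [hD]
          unfold mm
          field_simp
        rw [this, map_div₀, map_pow, hκ]
        exact le_max_left _ _
      · change v (nn (ax a y) (bx b y) (-Q / κ) (P / κ)) ≤ _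
        have : nn (ax a y) (bx b y) (-Q / κ) (P / κ) = Nx a b w ![1, t] y / κ ^ 3 := by
          rw [hN]
          unfold nn
          field_simp
        rw [this, map_div₀, map_pow, hκ]
        exact le_max_right _ _
    · have e1 : (![(![w, t, y 0, y 1, -Q / κ, P / κ] : Fin 6 → K) 2,
          (![w, t, y 0, y 1, -Q / κ, P / κ] : Fin 6 → K) 3] : Fin 2 → K) = y := by
        funext i
        fin_cases i <;> rfl
      have e2 : (![(![w, t, y 0, y 1, -Q / κ, P / κ] : Fin 6 → K) 4,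
          (![w, t, y 0, y 1, -Q / κ, P / κ] : Fin 6 → K) 5] : Fin 2 → K) k = 1 := by
        have h5 : (![(![w, t, y 0, y 1, -Q / κ, P / κ] : Fin 6 → K) 4,
          (![w, t, y 0, y 1, -Q / κ, P / κ] : Fin 6 → K) 5] : Fin 2 → K) k = ![-Q, P] k / κ := by
          fin_cases k <;> rfl
        rw [h5, hk, div_self hκ0]
      rw [e1, e2, mul_one, hi]

end Pool.Agent.H65.TK
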