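import Pool.Agent.H65.TK.NulSt

/-!
# Project TK (helper66), part LIN: the local inequalities
-/

set_option autoImplicit false

open Pool.Agent.Y720.MZ MvPolynomial Height AdmissibleAbsValues Pool.Agent.Q35.TT

namespace Pool.Agent.H65.TK

open Pool.Agent.H66.TK

/-! ### Bounded functions -/

/-- `f` is bounded by a system of constants on the data with the property `P v` -/
def Bd {K : Type} [Field K] [NumberField K] {δ : Type} (P : AbsoluteValue K ℝ → δ → Prop)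
    (f : δ → K) : Prop :=
  ∃ C : AbsoluteValue K ℝ → ℝ, Cst C ∧ ∀ v d, P v d → v (f d) ≤ C v

section bd

variable {K : Type} [Field K] [NumberField K] {δ : Type} {P : AbsoluteValue K ℝ → δ → Prop}

theorem Bd.const (c : K) : Bd P (fun _ => c) :=
  ⟨_, cst_max c, fun _ _ _ => le_max_right _ _⟩

theorem Bd.of {R : AbsoluteValue K ℝ → ℝ} (hR : Cst R) {f : δ → K}
    (h : ∀ v d, P v d → v (f d) ≤ R v) : Bd P f := ⟨R, hR, h⟩

theorem Bd.add {f g : δ → K} (hf : Bd P f) (hg : Bd P g) : Bd P (fun d => f d + g d) := by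
  classical
  obtain ⟨A, hA, hA'⟩ := hf
  obtain ⟨B, hB, hB'⟩ := hg
  refine ⟨_, cst_mul cst_two (cst_mul hA hB), fun v d hd => ?_⟩
  have := add_le v (f d) (g d) (A v) (B v) 1 (hA.one_le v) (hB.one_le v) zero_le_one
    (by rw [mul_one]; exact hA' v d hd) (by rw [mul_one]; exact hB' v d hd)
  rw [mul_one] at this
  exact this

theorem Bd.mul {f g : δ → K} (hf : Bd P f) (hg : Bd P g) : Bd P (fun d => f d * g d) := by
  obtain ⟨A, hA, hA'⟩ := hf
  obtain ⟨B, hB, hB'⟩ := hg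
  refine ⟨_, cst_mul hA hB, fun v d hd => ?_⟩
  rw [map_mul]
  exact mul_le_mul (hA' v d hd) (hB' v d hd) (v.nonneg _) (zero_le_one.trans (hA.one_le v))

theorem Bd.neg {f : δ → K} (hf : Bd P f) : Bd P (fun d => - f d) := by
  obtain ⟨A, hA, hA'⟩ := hf
  exact ⟨A, hA, fun v d hd => by rw [v.map_neg]; exact hA' v d hd⟩

theorem Bd.sub {f g : δ → K} (hf : Bd P f) (hg : Bd P g) : Bd P (fun d => f d - g d) := by
  simp only [sub_eq_add_neg]
  exact hf.add hg.neg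

theorem Bd.pow {f : δ → K} (hf : Bd P f) (n : ℕ) : Bd P (fun d => f d ^ n) := by
  induction n with
  | zero =>
    simp only [pow_zero]
    exact Bd.const 1
  | succ n ih =>
    simp only [pow_succ]
    exact ih.mul hf

end bd

/-! ### The local inequality for a quartic with bounded coefficients -/

theorem locq {K : Type} [Field K] [NumberField K] (G : AbsoluteValue K ℝ → ℝ) (hG : Cst G) :
    ∃ D : AbsoluteValue K ℝ → ℝ, Cst D ∧
      ∀ (a : Fin 5 → K) (s : K) (n : ℕ), n ≠ 0 → TorT a s n → ∀ k,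
        (∀ v ∈ archAbsVal (K := K), (∀ i, v (a i) ≤ G v) →
          v (bd a ![1, s] k) ^ 2 ≤ D v * (n : ℝ) ^ 4 * v (bq a ![1, s]) * max 1 (v s) ^ 2) ∧
        ∀ v ∈ nonarchAbsVal (K := K), (∀ i, v (a i) ≤ G v) →
          v (bd a ![1, s] k) ^ 2 ≤ D v * v (bq a ![1, s]) * max 1 (v s) ^ 2 := by
  have h1 : S_ART := art_ Pool.Agent.Q53.TT.ARC.arc Pool.Agent.Q121.TT.trn
  have h2 : S_NAT := nat_ Pool.Agent.Q68.TT.Ext.ext (Pool.Agent.Q53.TT.NAR.nar
    Pool.Agent.Q121.TT.trn) Pool.Agent.Q121.TT.trn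
  have h3 : S_GLT := Pool.Agent.Q79.TT.glt Pool.Agent.Q68.TT.Ext.ext Pool.Agent.Q137.TT.inf_
    Pool.Agent.Q121.TT.trn
  have h5 : S_LOT := Pool.Agent.Q190.TT.Lot.lot Pool.Agent.Q121.TT.trn
  have h6 : S_LGT := Pool.Agent.Q190.TT.Lot.lgt Pool.Agent.Q121.TT.trn
  obtain ⟨p1, p2, p3⟩ := Pool.Agent.Q193.TT.pla K
  have key : ∀ v : AbsoluteValue K ℝ, ∃ C : ℝ, 1 ≤ C ∧
      (v ∈ nonarchAbsVal (K := K) → (∃ p, Gd v p) → G v = 1 → C = 1) ∧
      ∀ (a : Fin 5 → K) (s : K) (n : ℕ), n ≠ 0 → TorT a s n → (∀ i, v (a i) ≤ G v) → ∀ k,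
        (v ∈ archAbsVal (K := K) → v (bd a ![1, s] k) ^ 2 ≤
          C * (n : ℝ) ^ 4 * v (bq a ![1, s]) * max 1 (v s) ^ 2) ∧
        (v ∈ nonarchAbsVal (K := K) → v (bd a ![1, s] k) ^ 2 ≤
          C * v (bq a ![1, s]) * max 1 (v s) ^ 2) := by
    intro v
    have hA := hG.one_le v
    by_cases hna : v ∈ nonarchAbsVal (K := K)
    · have hv := isNonarchimedean v hna
      have hnat : ∀ n : ℕ, v (n : K) ≤ 1 := fun n => hv.apply_natCast_le_one
      have harch : v ∉ archAbsVal (K := K) := by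
        intro h
        have e1 := p1 v h 2
        have e2 := hnat 2
        rw [e1] at e2
        norm_num at e2
      by_cases hg : (∃ p, Gd v p) ∧ G v = 1
      · obtain ⟨⟨p, hp⟩, hc⟩ := hg
        refine ⟨1, le_rfl, fun _ _ _ => rfl, ?_⟩
        intro a s n hn hT ha k
        refine ⟨fun h => absurd h harch, fun _ => ?_⟩
        have e2 : v (2 : K) = 1 := by
          have := hp.unit 2 (by norm_num) (by have := hp.p5; omega)
          exact_mod_cast this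
        have e3 : v (3 : K) = 1 := by
          have := hp.unit 3 (by norm_num) (by have := hp.p5; omega)
          exact_mod_cast this
        have := h6 K v hv e2 e3 (h3 K v p hp) a 1 one_ne_zero
          (fun k => by rw [map_one, one_pow, ← hc]; exact ha k) s n hn hT k
        rw [map_one, one_pow, mul_one] at this
        rw [one_mul]
        exact this
      · have e30 : (3 : K) ≠ 0 := by norm_num
        have hv3 : 0 < v (3 : K) := v.pos e30
        have hv3' : v (3 : K) ≤ 1 := by exact_mod_cast hnat 3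
        have hv2' : v (2 : K) ≤ 1 := by exact_mod_cast hnat 2
        obtain ⟨A, hAdef⟩ : ∃ A, A = G v := ⟨_, rfl⟩
        rw [← hAdef] at hA
        obtain ⟨A', hA'⟩ : ∃ A' : ℝ, A' = (16 * A ^ 2 + 137 * A ^ 3) / v 3 ^ 3 := ⟨_, rfl⟩
        have hA2 : (1 : ℝ) ≤ A ^ 2 := one_le_pow₀ hA
        have hA3 : (1 : ℝ) ≤ A ^ 3 := one_le_pow₀ hA
        have hv33 : 0 < v (3 : K) ^ 3 := by positivity
        have hA'1 : 1 ≤ A' := by
          rw [hA', le_div_iff₀ hv33]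
          have : v (3 : K) ^ 3 ≤ 1 := pow_le_one₀ hv3.le hv3'
          linarith
        obtain ⟨B, hB, hLB⟩ := h2 K v hv (p2 v hna) A' hA'1
        have hq1 : 16 * A ^ 2 ≤ A' * v 3 := by
          rw [hA', div_mul_eq_mul_div, le_div_iff₀ hv33]
          have : v (3 : K) ^ 3 ≤ v 3 := by
            calc v (3 : K) ^ 3 ≤ v 3 ^ 1 := pow_le_pow_of_le_one hv3.le hv3' (by norm_num)
              _ = v 3 := pow_one _
          nlinarith
        have hq2 : 137 * A ^ 3 ≤ A' * v 3 ^ 3 := by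
          rw [hA', div_mul_cancel₀ _ hv33.ne']
          linarith
        refine ⟨(144 * A + 12 * B) / v 3, ?_, fun _ hg1 hg2 => absurd ⟨hg1, hg2⟩ hg, ?_⟩
        · rw [le_div_iff₀ hv3]
          linarith
        intro a s n hn hT ha k
        refine ⟨fun h => absurd h harch, fun _ => ?_⟩
        have := h5 K v A A' B 0 hA hB (by linarith) hq1 hq2 (by linarith) (by linarith) hLB
          a 1 one_ne_zero (fun k => by rw [map_one, one_pow, mul_one, hAdef]; exact ha k) s n hn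
          hT k
        rw [pow_zero, mul_one, map_one, one_pow, mul_one] at this
        have e : (144 * A + 12 * B) / v 3 * v (bq a ![1, s]) * max 1 (v s) ^ 2 =
              ((144 * A + 12 * B) * v (bq a ![1, s]) * max 1 (v s) ^ 2) / v 3 := by
          ring
        rw [e, le_div_iff₀ hv3, mul_comm]
        exact this
    · by_cases har : v ∈ archAbsVal (K := K)
      · have hn := p1 v har
        have e3 : v (3 : K) = 3 := by exact_mod_cast hn 3
        have e2 : v (2 : K) = 2 := by exact_mod_cast hn 2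
        obtain ⟨A, hAdef⟩ : ∃ A, A = G v := ⟨_, rfl⟩
        rw [← hAdef] at hA
        have hA2 : (1 : ℝ) ≤ A ^ 2 := one_le_pow₀ hA
        have hA3 : (1 : ℝ) ≤ A ^ 3 := one_le_pow₀ hA
        obtain ⟨B, hB, hLB⟩ := h1 K (16 * A ^ 2 + 137 * A ^ 3) (by linarith)
        refine ⟨144 * A + 12 * B, by linarith, fun h => absurd h hna, ?_⟩
        intro a s n hn hT ha k
        refine ⟨fun _ => ?_, fun h => absurd h hna⟩
        have := h5 K v A (16 * A ^ 2 + 137 * A ^ 3) B 4 hA hB (by linarith)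
          (by rw [e3]; linarith) (by rw [e3]; linarith) e2.le e3.le (hLB v har)
          a 1 one_ne_zero (fun k => by rw [map_one, one_pow, mul_one, hAdef]; exact ha k) s n hn
          hT k
        rw [map_one, one_pow, mul_one, e3] at this
        have hsq : 0 ≤ v (bd a ![1, s] k) ^ 2 := by positivity
        linarith
      · exact ⟨1, le_rfl, fun h => absurd h hna,
          fun a s n _ _ _ k => ⟨fun h => absurd h har, fun h => absurd h hna⟩⟩
  choose C hC1 hC2 hC3 using key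
  refine ⟨C, ⟨hC1, ?_⟩, ?_⟩
  · refine (p3.union hG.fin).subset ?_
    rintro v ⟨hv, hv'⟩
    by_cases hg : ∃ p, Gd v p
    · right
      refine ⟨hv, fun h => hv' (hC2 v hv hg h)⟩
    · left
      exact ⟨hv, hg⟩
  · intro a s n hn hT k
    exact ⟨fun v hv ha => (hC3 v a s n hn hT ha k).1 hv,
      fun v hv ha => (hC3 v a s n hn hT ha k).2 hv⟩

/-! ### Identities -/

section ids

variable {R : Type} [CommRing R] (α : Fin 3 → R) (β : Fin 4 → R) (w : R) (x : Fin 2 → R)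

/-- `∂ mm / ∂ u` at `(s, 1)` -/
def mu (s : R) : R := 2 * (3 * w) * s + (α 1 * x 0 + 2 * α 2 * x 1)

/-- `∂ mm / ∂ v` at `(s, 1)` -/
def mv (s : R) : R :=
  (α 1 * x 0 + 2 * α 2 * x 1) * s + 2 * (α 2 * w + β 2 * x 0 + 3 * β 3 * x 1)

theorem bq_gq (s : R) : bq (gq α β w x) ![1, s] =
    mm α β w x s 1 ^ 2 - 4 * (cw α w x * s + c1 α β w x) * nn α β s 1 := by
  simp only [bq, gq, mm, nn, Matrix.cons_val_zero, Matrix.cons_val_one, Matrix.cons_val]
  ring

theorem bd1_gq (s : R) : bd (gq α β w x) ![1, s] 1 =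
    2 * mm α β w x s 1 * mu α w x s - 4 * cw α w x * nn α β s 1 -
      4 * (cw α w x * s + c1 α β w x) * (3 * s ^ 2 + α 2) := by
  simp only [bd, gq, mm, nn, mu, Matrix.cons_val_zero, Matrix.cons_val_one, Matrix.cons_val]
  ring

theorem bd0_gq (s : R) : bd (gq α β w x) ![1, s] 0 =
    2 * mm α β w x s 1 * mv α β w x s - 4 * c1 α β w x * nn α β s 1 -
      4 * (cw α w x * s + c1 α β w x) * (2 * α 2 * s + 3 * β 3) := by
  simp only [bd, gq, mm, nn, mv, Matrix.cons_val_zero, Matrix.cons_val_one, Matrix.cons_val]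
  ring

end ids

/-! ### The core inequality at one place -/

section core

variable {K : Type} [Field K] [NumberField K]

open Classical in
/-- one or two -/
noncomputable def k2 (v : AbsoluteValue K ℝ) : ℝ := if v ∈ nonarchAbsVal (K := K) then 1 else 2

theorem k2_cst : Cst (K := K) k2 := cst_two

theorem add_le2 (v : AbsoluteValue K ℝ) (x y : K) (A B D : ℝ) (hA : 1 ≤ A) (hB : 1 ≤ B)
    (hD : 0 ≤ D) (hx : v x ≤ A * D) (hy : v y ≤ B * D) :
    v (x + y) ≤ (k2 v * (A * B)) * D := add_le v x y A B D hA hB hD hx hy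

theorem core_half (v : AbsoluteValue K ℝ) (c m p q b s z H0 H1 H2 H4 D N : _) (hH0 : 1 ≤ H0)
    (hH1 : 1 ≤ H1) (hH2 : 1 ≤ H2) (hH4 : 1 ≤ H4) (hD : 1 ≤ D) (hN : 1 ≤ N)
    (h0 : v (2 : K) ≤ H0) (h1 : v p ≤ H1) (h2 : v q ≤ H2) (h4 : v (4⁻¹ : K) ≤ H4)
    (hb : v b ≤ D * N * v m * max 1 (v s)) (hz : 4 * (c * z) = 2 * m * (p * s + q) - b) :
    v (c * z) ≤ (H4 * (k2 v * (H0 * (k2 v * (H1 * H2)) * D))) * N * (v m * max 1 (v s)) := by
  have hk := k2_cst.one_le v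
  have hM : 1 ≤ max 1 (v s) := le_max_left _ _
  have hM0 : 0 ≤ max 1 (v s) := zero_le_one.trans hM
  have e1 : v (p * s + q) ≤ (k2 v * (H1 * H2)) * max 1 (v s) := by
    apply add_le2 v _ _ _ _ _ hH1 hH2 hM0
    · rw [map_mul]
      exact mul_le_mul h1 (le_max_right _ _) (v.nonneg _) (zero_le_one.trans hH1)
    · exact h2.trans (le_mul_of_one_le_right (zero_le_one.trans hH2) hM)
  have hk1 : 1 ≤ k2 v * (H1 * H2) :=
    one_le_mul_of_one_le_of_one_le hk (one_le_mul_of_one_le_of_one_le hH1 hH2)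
  have hk0 : 1 ≤ H0 * (k2 v * (H1 * H2)) := one_le_mul_of_one_le_of_one_le hH0 hk1
  have hDN : 1 ≤ D * N := one_le_mul_of_one_le_of_one_le hD hN
  have e2 : v (2 * m * (p * s + q)) ≤ (H0 * (k2 v * (H1 * H2))) * (v m * max 1 (v s)) := by
    rw [map_mul, map_mul]
    calc v 2 * v m * v (p * s + q) ≤ H0 * v m * ((k2 v * (H1 * H2)) * max 1 (v s)) := by
          apply mul_le_mul _ e1 (v.nonneg _) (mul_nonneg (zero_le_one.trans hH0) (v.nonneg _))
          exact mul_le_mul_of_nonneg_right h0 (v.nonneg _)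
      _ = (H0 * (k2 v * (H1 * H2))) * (v m * max 1 (v s)) := by ring
  have e3 : v (2 * m * (p * s + q) + -b) ≤
      (k2 v * ((H0 * (k2 v * (H1 * H2))) * (D * N))) * (v m * max 1 (v s)) := by
    apply add_le2 v _ _ _ _ _ hk0 hDN (mul_nonneg (v.nonneg _) hM0) e2
    rw [v.map_neg]
    calc v b ≤ D * N * v m * max 1 (v s) := hb
      _ = D * N * (v m * max 1 (v s)) := by ring
  rw [← sub_eq_add_neg, ← hz] at e3
  have e4 : c * z = 4⁻¹ * (4 * (c * z)) := by
    rw [← mul_assoc, inv_mul_cancel₀ (by norm_num), one_mul]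
  rw [e4, map_mul]
  calc v 4⁻¹ * v (4 * (c * z)) ≤ H4 * ((k2 v * ((H0 * (k2 v * (H1 * H2))) * (D * N))) *
        (v m * max 1 (v s))) :=
        mul_le_mul h4 e3 (v.nonneg _) (zero_le_one.trans hH4)
    _ = _ := by ring

omit [NumberField K] in
theorem DD_eq (α : Fin 3 → K) (β : Fin 4 → K) (w : K) (x : Fin 2 → K) (s : K)
    (hs : cw α w x * s + c1 α β w x = 0) : DD α β w x = cw α w x ^ 2 * mm α β w x s 1 := by
  have h : -(c1 α β w x) = cw α w x * s := by linear_combination -hs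
  unfold DD
  rw [h]
  unfold mm
  ring

omit [NumberField K] in
theorem NN_eq (α : Fin 3 → K) (β : Fin 4 → K) (w : K) (x : Fin 2 → K) (s : K)
    (hs : cw α w x * s + c1 α β w x = 0) : H66.TK.NN α β w x = cw α w x ^ 3 * nn α β s 1 := by
  have h : -(c1 α β w x) = cw α w x * s := by linear_combination -hs
  unfold H66.TK.NN
  rw [h]
  unfold nn
  ring

theorem core (v : AbsoluteValue K ℝ) (α : Fin 3 → K) (β : Fin 4 → K) (w : K) (x : Fin 2 → K)
    (s : K) (hs : cw α w x * s + c1 α β w x = 0) (H0 H1 H2 H3 H4 D N : ℝ)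
    (hH0 : 1 ≤ H0) (hH1 : 1 ≤ H1) (hH2 : 1 ≤ H2) (hH3 : 1 ≤ H3) (hH4 : 1 ≤ H4) (hD : 1 ≤ D)
    (hN : 1 ≤ N) (h0 : v (2 : K) ≤ H0) (h1 : v (2 * (3 * w)) ≤ H1)
    (h2 : v (α 1 * x 0 + 2 * α 2 * x 1) ≤ H2)
    (h3 : v (2 * (α 2 * w + β 2 * x 0 + 3 * β 3 * x 1)) ≤ H3) (h4 : v (4⁻¹ : K) ≤ H4)
    (hb : ∀ k, v (bd (gq α β w x) ![1, s] k) ^ 2 ≤
      D * N ^ 2 * v (bq (gq α β w x) ![1, s]) * max 1 (v s) ^ 2) :
    v (H66.TK.NN α β w x) ≤ ((H4 * (k2 v * (H0 * (k2 v * (H1 * H2)) * D))) *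
      (H4 * (k2 v * (H0 * (k2 v * (H2 * H3)) * D)))) * N * v (DD α β w x) := by
  have hk := k2_cst.one_le v
  have hM : 1 ≤ max 1 (v s) := le_max_left _ _
  have hM0 : 0 < max 1 (v s) := lt_of_lt_of_le zero_lt_one hM
  obtain ⟨m, hm⟩ : ∃ m, m = mm α β w x s 1 := ⟨_, rfl⟩
  obtain ⟨z, hz⟩ : ∃ z, z = nn α β s 1 := ⟨_, rfl⟩
  obtain ⟨c, hc⟩ : ∃ c, c = cw α w x := ⟨_, rfl⟩
  have hbq : bq (gq α β w x) ![1, s] = m ^ 2 := by
    rw [bq_gq, hs, hm]
    ring
  have hb' : ∀ k, v (bd (gq α β w x) ![1, s] k) ≤ D * N * v m * max 1 (v s) := by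
    intro k
    have h5 := hb k
    rw [hbq, map_pow] at h5
    have h6 : 0 ≤ D * N * v m * max 1 (v s) := by
      have := v.nonneg m
      positivity
    refine (pow_le_pow_iff_left₀ (v.nonneg _) h6 two_ne_zero).1 (h5.trans ?_)
    calc D * N ^ 2 * v m ^ 2 * max 1 (v s) ^ 2 = D * (N ^ 2 * v m ^ 2 * max 1 (v s) ^ 2) := by ring
      _ ≤ D ^ 2 * (N ^ 2 * v m ^ 2 * max 1 (v s) ^ 2) := by
        apply mul_le_mul_of_nonneg_right _ (by positivity)
        nlinarith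
      _ = (D * N * v m * max 1 (v s)) ^ 2 := by ring
  have i1 : 4 * (c * z) = 2 * m * (2 * (3 * w) * s + (α 1 * x 0 + 2 * α 2 * x 1)) -
      bd (gq α β w x) ![1, s] 1 := by
    rw [bd1_gq, hs, hm, hz, hc]
    unfold mu
    ring
  have i0 : 4 * ((c1 α β w x) * z) = 2 * m * ((α 1 * x 0 + 2 * α 2 * x 1) * s +
      2 * (α 2 * w + β 2 * x 0 + 3 * β 3 * x 1)) - bd (gq α β w x) ![1, s] 0 := by
    rw [bd0_gq, hs, hm, hz]
    unfold mv
    ring
  have f1 := core_half v c m _ _ _ s z H0 H1 H2 H4 D N hH0 hH1 hH2 hH4 hD hN h0 h1 h2 h4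
    (hb' 1) i1
  have f0 := core_half v (c1 α β w x) m _ _ _ s z H0 H2 H3 H4 D N hH0 hH2 hH3 hH4 hD hN h0 h2 h3
    h4 (hb' 0) i0
  obtain ⟨E1, hE1⟩ : ∃ E1, E1 = H4 * (k2 v * (H0 * (k2 v * (H1 * H2)) * D)) := ⟨_, rfl⟩
  obtain ⟨E2, hE2⟩ : ∃ E2, E2 = H4 * (k2 v * (H0 * (k2 v * (H2 * H3)) * D)) := ⟨_, rfl⟩
  rw [← hE1] at f1 ⊢
  rw [← hE2] at f0 ⊢
  have o1 : 1 ≤ E1 := by
    rw [hE1]
    exact one_le_mul_of_one_le_of_one_le hH4 (one_le_mul_of_one_le_of_one_le hk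
      (one_le_mul_of_one_le_of_one_le (one_le_mul_of_one_le_of_one_le hH0
        (one_le_mul_of_one_le_of_one_le hk (one_le_mul_of_one_le_of_one_le hH1 hH2))) hD))
  have o2 : 1 ≤ E2 := by
    rw [hE2]
    exact one_le_mul_of_one_le_of_one_le hH4 (one_le_mul_of_one_le_of_one_le hk
      (one_le_mul_of_one_le_of_one_le (one_le_mul_of_one_le_of_one_le hH0
        (one_le_mul_of_one_le_of_one_le hk (one_le_mul_of_one_le_of_one_le hH2 hH3))) hD))
  have hc1 : c1 α β w x = -(s * c) := by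
    rw [hc]
    linear_combination hs
  rw [hc1, neg_mul, v.map_neg, mul_assoc, map_mul v s] at f0
  have hvm := v.nonneg m
  have g1 : v (c * z) ≤ (E1 * E2) * N * (v m * max 1 (v s)) := by
    refine f1.trans ?_
    apply mul_le_mul_of_nonneg_right _ (by positivity)
    apply mul_le_mul_of_nonneg_right _ (by positivity)
    nlinarith
  have g0 : v s * v (c * z) ≤ (E1 * E2) * N * (v m * max 1 (v s)) := by
    refine f0.trans ?_
    apply mul_le_mul_of_nonneg_right _ (by positivity)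
    apply mul_le_mul_of_nonneg_right _ (by positivity)
    nlinarith
  have g2 : max 1 (v s) * v (c * z) ≤ max 1 (v s) * ((E1 * E2) * N * v m) := by
    have : max 1 (v s) * v (c * z) ≤ (E1 * E2) * N * (v m * max 1 (v s)) := by
      rw [max_mul_of_nonneg _ _ (v.nonneg _), one_mul]
      exact max_le g1 g0
    calc max 1 (v s) * v (c * z) ≤ (E1 * E2) * N * (v m * max 1 (v s)) := this
      _ = _ := by ring
  have g3 : v (c * z) ≤ (E1 * E2) * N * v m := le_of_mul_le_mul_left g2 hM0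
  rw [NN_eq α β w x s hs, DD_eq α β w x s hs, ← hc, ← hm, ← hz]
  have e1 : c ^ 3 * z = c ^ 2 * (c * z) := by ring
  rw [e1, map_mul v (c ^ 2) (c * z), map_mul v (c ^ 2) m, map_pow]
  calc v c ^ 2 * v (c * z) ≤ v c ^ 2 * ((E1 * E2) * N * v m) :=
        mul_le_mul_of_nonneg_left g3 (by positivity)
    _ = (E1 * E2) * N * (v c ^ 2 * v m) := by ring

end core

/-! ### The data -/

section data

variable {K : Type} [Field K] [NumberField K]

/-- a finite family of bounded functions -/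
theorem Bd.fam {δ ι : Type} {P : AbsoluteValue K ℝ → δ → Prop} (s : Finset ι) (f : ι → δ → K)
    (h : ∀ i, Bd P (f i)) :
    ∃ C : AbsoluteValue K ℝ → ℝ, Cst C ∧ ∀ i ∈ s, ∀ v d, P v d → v (f i d) ≤ C v := by
  classical
  induction s using Finset.induction_on with
  | empty => exact ⟨_, cst_one, fun i hi => absurd hi (Finset.notMem_empty i)⟩
  | insert i s hi ih =>
    obtain ⟨C, hC, hC'⟩ := ih
    obtain ⟨A, hA, hA'⟩ := h i
    refine ⟨_, cst_mul hA hC, fun j hj v d hd => ?_⟩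
    have a1 := hA.one_le v
    have c1 := hC.one_le v
    rcases Finset.mem_insert.1 hj with h | h
    · rw [h]
      exact (hA' v d hd).trans (le_mul_of_one_le_right (zero_le_one.trans a1) c1)
    · exact (hC' j h v d hd).trans (le_mul_of_one_le_left (zero_le_one.trans c1) a1)

/-- the data `(α, β, w, x)` -/
abbrev Dat (K : Type) : Type := (Fin 3 → K) × (Fin 4 → K) × K × (Fin 2 → K)

/-- bounded data -/
def PD (A W : AbsoluteValue K ℝ → ℝ) (v : AbsoluteValue K ℝ) (d : Dat K) : Prop :=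
  (∀ i, v (d.1 i) ≤ A v) ∧ (∀ i, v (d.2.1 i) ≤ A v) ∧ v d.2.2.1 ≤ W v ∧ ∀ i, v (d.2.2.2 i) ≤ 1

theorem bdα {A W : AbsoluteValue K ℝ → ℝ} (hA : Cst A) (i : Fin 3) :
    Bd (PD A W) (fun d : Dat K => d.1 i) := Bd.of hA fun _ _ h => h.1 i

theorem bdβ {A W : AbsoluteValue K ℝ → ℝ} (hA : Cst A) (i : Fin 4) :
    Bd (PD A W) (fun d : Dat K => d.2.1 i) := Bd.of hA fun _ _ h => h.2.1 i

theorem bdw {A W : AbsoluteValue K ℝ → ℝ} (hW : Cst W) :
    Bd (PD A W) (fun d : Dat K => d.2.2.1) := Bd.of hW fun _ _ h => h.2.2.1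

theorem bdx {A W : AbsoluteValue K ℝ → ℝ} (i : Fin 2) :
    Bd (PD A W) (fun d : Dat K => d.2.2.2 i) := Bd.of cst_one fun _ _ h => h.2.2.2 i

/-- the bound for `w` -/
theorem w_bd (A : AbsoluteValue K ℝ → ℝ) (hA : Cst A) : ∃ W : AbsoluteValue K ℝ → ℝ, Cst W ∧
    ∀ (v : AbsoluteValue K ℝ) (α : Fin 3 → K) (β : Fin 4 → K) (w : K) (x : Fin 2 → K),
      (∀ i, v (α i) ≤ A v) → (∀ i, v (β i) ≤ A v) → (∀ i, v (x i) ≤ 1) → cub α β w x = 0 →
      v w ≤ W v := by
  have hα := fun i => bdα (K := K) (W := fun _ => 1) hA i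
  have hβ := fun i => bdβ (K := K) (W := fun _ => 1) hA i
  have hx := fun i => bdx (K := K) (A := A) (W := fun _ => 1) i
  have hp : Bd (PD A (fun _ => 1)) (fun d : Dat K => q2 d.1 d.2.2.2) := by
    unfold q2
    exact (((hα 0).mul ((hx 0).pow 2)).add ((hα 1).mul ((hx 0).mul (hx 1)))).add
      ((hα 2).mul ((hx 1).pow 2))
  have hq : Bd (PD A (fun _ => 1)) (fun d : Dat K => q3 d.2.1 d.2.2.2) := by
    unfold q3
    exact ((((hβ 0).mul ((hx 0).pow 3)).add ((hβ 1).mul (((hx 0).pow 2).mul (hx 1)))).add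
      ((hβ 2).mul ((hx 0).mul ((hx 1).pow 2)))).add ((hβ 3).mul ((hx 1).pow 3))
  obtain ⟨P, hP, hP'⟩ := hp
  obtain ⟨Q, hQ, hQ'⟩ := hq
  refine ⟨fun v => k2 v * (P v * Q v), cst_mul k2_cst (cst_mul hP hQ), ?_⟩
  intro v α β w x h1 h2 h3 h4
  have p1 := hP.one_le v
  have q1 := hQ.one_le v
  have k1 := k2_cst.one_le v
  have hd : PD A (fun _ => 1) v (α, β, 0, x) := ⟨h1, h2, by simp, h3⟩
  have hp := hP' v _ hd
  have hq := hQ' v _ hd
  have hpq : 1 ≤ k2 v * (P v * Q v) :=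
    one_le_mul_of_one_le_of_one_le k1 (one_le_mul_of_one_le_of_one_le p1 q1)
  change v w ≤ k2 v * (P v * Q v)
  rcases le_total (v w) 1 with hw | hw
  · exact hw.trans hpq
  · have hw0 : 0 ≤ v w := v.nonneg w
    have e1 : v (q2 α x * w + q3 β x) ≤ (k2 v * (P v * Q v)) * v w := by
      apply add_le2 v _ _ _ _ _ p1 q1 hw0
      · rw [map_mul]
        exact mul_le_mul_of_nonneg_right hp hw0
      · exact hq.trans (le_mul_of_one_le_right (zero_le_one.trans q1) hw)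
    have e2 : q2 α x * w + q3 β x = -(w ^ 3) := by
      unfold cub at h4
      linear_combination h4
    rw [e2, v.map_neg, map_pow] at e1
    have hwpos : 0 < v w := lt_of_lt_of_le zero_lt_one hw
    have e3 : v w ^ 2 ≤ k2 v * (P v * Q v) := by
      have : v w ^ 2 * v w ≤ (k2 v * (P v * Q v)) * v w := by
        calc v w ^ 2 * v w = v w ^ 3 := by ring
          _ ≤ _ := e1
      exact le_of_mul_le_mul_right this hwpos
    nlinarith

theorem gq_bd {A W : AbsoluteValue K ℝ → ℝ} (hA : Cst A) (hW : Cst W) (i : Fin 5) :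
    Bd (PD A W) (fun d : Dat K => gq d.1 d.2.1 d.2.2.1 d.2.2.2 i) := by
  have hα := fun i => bdα (K := K) (W := W) hA i
  have hβ := fun i => bdβ (K := K) (W := W) hA i
  have hx := fun i => bdx (K := K) (A := A) (W := W) i
  have hw := bdw (K := K) (A := A) hW
  have c2 : Bd (PD A W) (fun _ : Dat K => (2 : K)) := Bd.const 2
  have c3 : Bd (PD A W) (fun _ : Dat K => (3 : K)) := Bd.const 3
  have c4 : Bd (PD A W) (fun _ : Dat K => (4 : K)) := Bd.const 4
  have hcw : Bd (PD A W) (fun d : Dat K => cw d.1 d.2.2.1 d.2.2.2) := by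
    unfold cw q2
    exact (c3.mul (hw.pow 2)).add ((((hα 0).mul ((hx 0).pow 2)).add ((hα 1).mul
      ((hx 0).mul (hx 1)))).add ((hα 2).mul ((hx 1).pow 2)))
  have he : Bd (PD A W) (fun d : Dat K => d.1 1 * d.2.2.2 0 + 2 * d.1 2 * d.2.2.2 1) :=
    ((hα 1).mul (hx 0)).add ((c2.mul (hα 2)).mul (hx 1))
  have hf : Bd (PD A W) (fun d : Dat K => d.1 2 * d.2.2.1 + d.2.1 2 * d.2.2.2 0 +
      3 * d.2.1 3 * d.2.2.2 1) :=
    (((hα 2).mul hw).add ((hβ 2).mul (hx 0))).add ((c3.mul (hβ 3)).mul (hx 1))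
  have hc1 : Bd (PD A W) (fun d : Dat K => c1 d.1 d.2.1 d.2.2.1 d.2.2.2) := by
    unfold c1
    exact (he.mul hw).add ((((hβ 1).mul ((hx 0).pow 2)).add ((c2.mul (hβ 2)).mul
      ((hx 0).mul (hx 1)))).add ((c3.mul (hβ 3)).mul ((hx 1).pow 2)))
  fin_cases i
  · exact (hf.pow 2).sub (c4.mul (hc1.mul (hβ 3)))
  · exact ((c2.mul he).mul hf).sub (c4.mul ((hcw.mul (hβ 3)).add (hc1.mul (hα 2))))
  · exact ((he.pow 2).add ((c2.mul (c3.mul hw)).mul hf)).sub (c4.mul (hcw.mul (hα 2)))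
  · exact ((c2.mul (c3.mul hw)).mul he).sub (c4.mul hc1)
  · exact ((c3.mul hw).pow 2).sub (c4.mul hcw)

end data

/-! ### Scaling -/

section scale

variable {R : Type} [CommRing R] (α : Fin 3 → R) (β : Fin 4 → R) (w t r : R)

theorem cub_sc : cub α β (w * r) ![r, t * r] = cub α β w ![1, t] * r ^ 3 := by
  simp only [cub, q2, q3, Matrix.cons_val_zero, Matrix.cons_val_one]
  ring

theorem cw_sc : cw α (w * r) ![r, t * r] = cw α w ![1, t] * r ^ 2 := by
  simp only [cw, q2, Matrix.cons_val_zero, Matrix.cons_val_one]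
  ring

theorem c1_sc : c1 α β (w * r) ![r, t * r] = c1 α β w ![1, t] * r ^ 2 := by
  simp only [c1, Matrix.cons_val_zero, Matrix.cons_val_one]
  ring

theorem gq_sc (i : Fin 5) : gq α β (w * r) ![r, t * r] i = gq α β w ![1, t] i * r ^ 2 := by
  fin_cases i
  · change (α 2 * (w * r) + β 2 * r + 3 * β 3 * (t * r)) ^ 2 -
      4 * (c1 α β (w * r) ![r, t * r] * β 3) = ((α 2 * w + β 2 * 1 + 3 * β 3 * t) ^ 2 -
      4 * (c1 α β w ![1, t] * β 3)) * r ^ 2
    rw [c1_sc]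
    ring
  · change 2 * (α 1 * r + 2 * α 2 * (t * r)) * (α 2 * (w * r) + β 2 * r + 3 * β 3 * (t * r)) -
      4 * (cw α (w * r) ![r, t * r] * β 3 + c1 α β (w * r) ![r, t * r] * α 2) =
      (2 * (α 1 * 1 + 2 * α 2 * t) * (α 2 * w + β 2 * 1 + 3 * β 3 * t) -
      4 * (cw α w ![1, t] * β 3 + c1 α β w ![1, t] * α 2)) * r ^ 2
    rw [c1_sc, cw_sc]
    ring
  · change (α 1 * r + 2 * α 2 * (t * r)) ^ 2 + 2 * (3 * (w * r)) *
      (α 2 * (w * r) + β 2 * r + 3 * β 3 * (t * r)) - 4 * (cw α (w * r) ![r, t * r] * α 2) =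
      ((α 1 * 1 + 2 * α 2 * t) ^ 2 + 2 * (3 * w) * (α 2 * w + β 2 * 1 + 3 * β 3 * t) -
      4 * (cw α w ![1, t] * α 2)) * r ^ 2
    rw [cw_sc]
    ring
  · change 2 * (3 * (w * r)) * (α 1 * r + 2 * α 2 * (t * r)) - 4 * c1 α β (w * r) ![r, t * r] =
      (2 * (3 * w) * (α 1 * 1 + 2 * α 2 * t) - 4 * c1 α β w ![1, t]) * r ^ 2
    rw [c1_sc]
    ring
  · change (3 * (w * r)) ^ 2 - 4 * cw α (w * r) ![r, t * r] =
      ((3 * w) ^ 2 - 4 * cw α w ![1, t]) * r ^ 2
    rw [cw_sc]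
    ring

theorem NN_sc : H66.TK.NN α β (w * r) ![r, t * r] = H66.TK.NN α β w ![1, t] * r ^ 6 := by
  unfold H66.TK.NN
  rw [c1_sc, cw_sc]
  unfold nn
  ring

theorem DD_sc : DD α β (w * r) ![r, t * r] = DD α β w ![1, t] * r ^ 5 := by
  unfold DD
  rw [c1_sc, cw_sc]
  simp only [mm, Matrix.cons_val_zero, Matrix.cons_val_one]
  ring

end scale

/-! ### LIN -/

theorem lin (h : S_SCL) : S_LIN := by
  intro K _ _ A hA
  obtain ⟨W, hW, hW'⟩ := w_bd A hA
  obtain ⟨G, hG, hG'⟩ := Bd.fam Finset.univ _ (gq_bd hA hW)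
  obtain ⟨D, hD, hD'⟩ := locq G hG
  have hα := fun i => bdα (K := K) (W := W) hA i
  have hβ := fun i => bdβ (K := K) (W := W) hA i
  have hx := fun i => bdx (K := K) (A := A) (W := W) i
  have hw := bdw (K := K) (A := A) hW
  have c2 : Bd (PD A W) (fun _ : Dat K => (2 : K)) := Bd.const 2
  have c3 : Bd (PD A W) (fun _ : Dat K => (3 : K)) := Bd.const 3
  have c4 : Bd (PD A W) (fun _ : Dat K => (4⁻¹ : K)) := Bd.const 4⁻¹
  have he : Bd (PD A W) (fun d : Dat K => d.1 1 * d.2.2.2 0 + 2 * d.1 2 * d.2.2.2 1) :=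
    ((hα 1).mul (hx 0)).add ((c2.mul (hα 2)).mul (hx 1))
  have hf : Bd (PD A W) (fun d : Dat K => 2 * (d.1 2 * d.2.2.1 + d.2.1 2 * d.2.2.2 0 +
      3 * d.2.1 3 * d.2.2.2 1)) :=
    c2.mul ((((hα 2).mul hw).add ((hβ 2).mul (hx 0))).add ((c3.mul (hβ 3)).mul (hx 1)))
  have hg : Bd (PD A W) (fun d : Dat K => 2 * (3 * d.2.2.1)) := c2.mul (c3.mul hw)
  obtain ⟨H0, hH0, hH0'⟩ := c2
  obtain ⟨H1, hH1, hH1'⟩ := hg
  obtain ⟨H2, hH2, hH2'⟩ := he
  obtain ⟨H3, hH3, hH3'⟩ := hf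
  obtain ⟨H4, hH4, hH4'⟩ := c4
  refine ⟨fun v => (H4 v * (k2 v * (H0 v * (k2 v * (H1 v * H2 v)) * D v))) *
      (H4 v * (k2 v * (H0 v * (k2 v * (H2 v * H3 v)) * D v))),
    cst_mul (cst_mul hH4 (cst_mul k2_cst (cst_mul (cst_mul hH0 (cst_mul k2_cst
      (cst_mul hH1 hH2))) hD))) (cst_mul hH4 (cst_mul k2_cst (cst_mul (cst_mul hH0
      (cst_mul k2_cst (cst_mul hH2 hH3))) hD))), ?_⟩
  intro α β w t n hn hF hcw hT
  obtain ⟨s, hs⟩ : ∃ s, s = -(c1 α β w ![1, t]) / cw α w ![1, t] := ⟨_, rfl⟩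
  rw [← hs] at hT
  have hs0 : cw α w ![1, t] * s + c1 α β w ![1, t] = 0 := by
    rw [hs]
    field_simp
    ring
  -- normalisation
  have key : ∀ (v : AbsoluteValue K ℝ) (N : ℝ), 1 ≤ N → (∀ i, v (α i) ≤ A v) →
      (∀ i, v (β i) ≤ A v) →
      (∀ (a : Fin 5 → K), TorT a s n → (∀ i, v (a i) ≤ G v) → ∀ k,
        v (bd a ![1, s] k) ^ 2 ≤ D v * N ^ 2 * v (bq a ![1, s]) * max 1 (v s) ^ 2) →
      v (H66.TK.NN α β w ![1, t]) ≤ ((H4 v * (k2 v * (H0 v * (k2 v * (H1 v * H2 v)) * D v))) *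
      (H4 v * (k2 v * (H0 v * (k2 v * (H2 v * H3 v)) * D v)))) * N *
        v (DD α β w ![1, t]) * max 1 (v t) := by
    intro v N hN ha hb hloc
    obtain ⟨ξ, hξ0, hξ⟩ : ∃ ξ : K, ξ ≠ 0 ∧ v ξ = max 1 (v t) := by
      rcases le_total (v t) 1 with h1 | h1
      · exact ⟨1, one_ne_zero, by rw [map_one, max_eq_left h1]⟩
      · refine ⟨t, ?_, by rw [max_eq_right h1]⟩
        rintro rfl
        rw [map_zero] at h1
        linarith
    have hM : 1 ≤ v ξ := by rw [hξ]; exact le_max_left _ _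
    have hM0 : 0 < v ξ := lt_of_lt_of_le zero_lt_one hM
    obtain ⟨r, hr⟩ : ∃ r, r = ξ⁻¹ := ⟨_, rfl⟩
    have hr0 : r ≠ 0 := by rw [hr]; exact inv_ne_zero hξ0
    have hvr : v r = (v ξ)⁻¹ := by rw [hr, map_inv₀]
    have hx1 : ∀ i, v ((![r, t * r] : Fin 2 → K) i) ≤ 1 := by
      intro i
      fin_cases i
      · change v r ≤ 1
        rw [hvr]
        exact inv_le_one_of_one_le₀ hM
      · change v (t * r) ≤ 1
        rw [map_mul, hvr, ← div_eq_mul_inv, div_le_one hM0, hξ]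
        exact le_max_right _ _
    have hcub : cub α β (w * r) ![r, t * r] = 0 := by
      rw [cub_sc, hF, zero_mul]
    have hwb : v (w * r) ≤ W v := hW' v α β (w * r) _ ha hb hx1 hcub
    have hd : PD A W v (α, β, w * r, ![r, t * r]) := ⟨ha, hb, hwb, hx1⟩
    have egq : gq α β (w * r) ![r, t * r] =
        fun i => gq α β w ![1, t] i * 1 ^ (i : ℕ) / ξ ^ 2 := by
      funext i
      rw [gq_sc, one_pow, mul_one, hr, div_eq_mul_inv, inv_pow]
    have hT' : TorT (gq α β (w * r) ![r, t * r]) s n := by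
      rw [egq]
      have := h K (gq α β w ![1, t]) s 1 ξ n one_ne_zero hξ0 hT
      rw [div_one] at this
      exact this
    have hs0' : cw α (w * r) ![r, t * r] * s + c1 α β (w * r) ![r, t * r] = 0 := by
      rw [cw_sc, c1_sc]
      have : cw α w ![1, t] * r ^ 2 * s + c1 α β w ![1, t] * r ^ 2 =
          (cw α w ![1, t] * s + c1 α β w ![1, t]) * r ^ 2 := by ring
      rw [this, hs0, zero_mul]
    have hfin := core v α β (w * r) ![r, t * r] s hs0' (H0 v) (H1 v) (H2 v) (H3 v) (H4 v)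
      (D v) N (hH0.one_le v) (hH1.one_le v) (hH2.one_le v) (hH3.one_le v) (hH4.one_le v)
      (hD.one_le v) hN (hH0' v _ hd) (hH1' v _ hd) (hH2' v _ hd) (hH3' v _ hd) (hH4' v _ hd)
      (hloc _ hT' fun i => hG' i (Finset.mem_univ i) v _ hd)
    rw [NN_sc, DD_sc, map_mul, map_mul, map_pow, map_pow] at hfin
    have hr5 : 0 < v r ^ 6 := pow_pos (v.pos hr0) 6
    refine le_of_mul_le_mul_right (hfin.trans (le_of_eq ?_)) hr5
    rw [← hξ]
    have e5 : v r ^ 5 = v ξ * v r ^ 6 := by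
      rw [hvr]
      field_simp
    rw [e5]
    ring
  refine ⟨fun v hv ha hb => ?_, fun v hv ha hb => ?_⟩
  · refine key v ((n : ℝ) ^ 2) ?_ ha hb fun a hTa haG k => ?_
    · exact one_le_pow₀ (by exact_mod_cast Nat.one_le_iff_ne_zero.2 hn)
    · have := (hD' a s n hn hTa k).1 v hv haG
      refine this.trans (le_of_eq ?_)
      ring
  · have := key v 1 le_rfl ha hb fun a hTa haG k => by
      have := (hD' a s n hn hTa k).2 v hv haG
      refine this.trans (le_of_eq ?_)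
      ring
    rw [mul_one] at this
    exact this

end Pool.Agent.H65.TK
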