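import Pool.Agent.H66.TK.Stm

/-!
# Project TK (helper66), part NUL: the Nullstellensatz with absolute values
-/

set_option autoImplicit false

open MvPolynomial Height AdmissibleAbsValues

namespace Pool.Agent.H65.TK

open Pool.Agent.H66.TK

variable {K : Type} [Field K] [NumberField K]

theorem cst_one : Cst (K := K) (fun _ => 1) := by
  refine ⟨fun _ => le_refl _, ?_⟩
  have : {v : AbsoluteValue K ℝ | v ∈ nonarchAbsVal (K := K) ∧ (1 : ℝ) ≠ 1} = ∅ := by
    ext v
    simp
  rw [this]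
  exact Set.finite_empty

theorem cst_mul {A B : AbsoluteValue K ℝ → ℝ} (hA : Cst A) (hB : Cst B) :
    Cst (fun v => A v * B v) := by
  refine ⟨fun v => one_le_mul_of_one_le_of_one_le (hA.one_le v) (hB.one_le v), ?_⟩
  refine (hA.fin.union hB.fin).subset ?_
  rintro v ⟨h1, h2⟩
  by_cases h : A v = 1
  · right
    refine ⟨h1, fun h' => h2 ?_⟩
    rw [h, h', mul_one]
  · exact Or.inl ⟨h1, h⟩

theorem cst_max (c : K) : Cst (K := K) (fun v => max 1 (v c)) := by
  refine ⟨fun v => le_max_left _ _, ?_⟩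
  by_cases hc : c = 0
  · have : {v : AbsoluteValue K ℝ | v ∈ nonarchAbsVal (K := K) ∧ max 1 (v c) ≠ 1} = ∅ := by
      ext v
      simp [hc]
    rw [this]
    exact Set.finite_empty
  · have h1 : (Function.mulSupport (fun v : nonarchAbsVal (K := K) ↦ v.val c)).Finite :=
      AdmissibleAbsValues.hasFiniteMulSupport hc
    refine (h1.image Subtype.val).subset ?_
    rintro v ⟨hv, hne⟩
    refine ⟨⟨v, hv⟩, ?_, rfl⟩
    rw [Function.mem_mulSupport]
    intro h
    apply hne
    have h2 : v c = 1 := h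
    rw [h2, max_self]

open Classical in
theorem cst_two : Cst (K := K) (fun v => if v ∈ nonarchAbsVal (K := K) then 1 else 2) := by
  refine ⟨fun v => ?_, ?_⟩
  · split_ifs <;> norm_num
  · have : {v : AbsoluteValue K ℝ | v ∈ nonarchAbsVal (K := K) ∧
        (if v ∈ nonarchAbsVal (K := K) then (1 : ℝ) else 2) ≠ 1} = ∅ := by
      ext v
      simp only [Set.mem_setOf_eq, Set.mem_empty_iff_false, iff_false, not_and, not_not]
      intro h
      rw [if_pos h]
    rw [this]
    exact Set.finite_empty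

open Classical in
theorem add_le (v : AbsoluteValue K ℝ) (x y : K) (A B D : ℝ) (hA : 1 ≤ A) (hB : 1 ≤ B)
    (hD : 0 ≤ D) (hx : v x ≤ A * D) (hy : v y ≤ B * D) :
    v (x + y) ≤ ((if v ∈ nonarchAbsVal (K := K) then 1 else 2) * (A * B)) * D := by
  have h1 : A * D ≤ (A * B) * D := by
    apply mul_le_mul_of_nonneg_right _ hD
    nlinarith
  have h2 : B * D ≤ (A * B) * D := by
    apply mul_le_mul_of_nonneg_right _ hD
    nlinarith
  split_ifs with h
  · have h3 := AdmissibleAbsValues.isNonarchimedean v h x y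
    rw [one_mul]
    exact h3.trans (max_le (hx.trans h1) (hy.trans h2))
  · have h3 := v.add_le x y
    linarith

/-- polynomials are bounded on bounded sets -/
theorem poly_bd {τ : Type} {R : AbsoluteValue K ℝ → ℝ} (hR : Cst R) (q : MvPolynomial τ K) :
    ∃ C : AbsoluteValue K ℝ → ℝ, Cst C ∧ ∀ (v : AbsoluteValue K ℝ) (z : τ → K),
      (∀ j, v (z j) ≤ R v) → v (eval z q) ≤ C v := by
  classical
  induction q using MvPolynomial.induction_on with
  | C a =>
    refine ⟨_, cst_max a, fun v z _ => ?_⟩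
    rw [eval_C]
    exact le_max_right _ _
  | add p q hp hq =>
    obtain ⟨A, hA, hA'⟩ := hp
    obtain ⟨B, hB, hB'⟩ := hq
    refine ⟨_, cst_mul cst_two (cst_mul hA hB), fun v z hz => ?_⟩
    rw [map_add]
    have := add_le v (eval z p) (eval z q) (A v) (B v) 1 (hA.one_le v) (hB.one_le v) zero_le_one
      (by rw [mul_one]; exact hA' v z hz) (by rw [mul_one]; exact hB' v z hz)
    rw [mul_one] at this
    exact this
  | mul_X p j hp =>
    obtain ⟨A, hA, hA'⟩ := hp
    refine ⟨_, cst_mul hA hR, fun v z hz => ?_⟩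
    rw [map_mul, map_mul, eval_X]
    exact mul_le_mul (hA' v z hz) (hz j) (v.nonneg _) (zero_le_one.trans (hA.one_le v))

theorem sum_bd {ι : Type} (s : Finset ι) (A : ι → AbsoluteValue K ℝ → ℝ) (hA : ∀ i, Cst (A i)) :
    ∃ C : AbsoluteValue K ℝ → ℝ, Cst C ∧ ∀ (v : AbsoluteValue K ℝ) (x : ι → K) (B : ℝ), 0 ≤ B →
      (∀ i ∈ s, v (x i) ≤ A i v * B) → v (∑ i ∈ s, x i) ≤ C v * B := by
  classical
  induction s using Finset.induction_on with
  | empty =>
    refine ⟨_, cst_one, fun v x B hB _ => ?_⟩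
    rw [Finset.sum_empty, map_zero, one_mul]
    exact hB
  | insert i s hi ih =>
    obtain ⟨C, hC, hC'⟩ := ih
    refine ⟨_, cst_mul cst_two (cst_mul (hA i) hC), fun v x B hB hx => ?_⟩
    rw [Finset.sum_insert hi]
    exact add_le v _ _ (A i v) (C v) B ((hA i).one_le v) (hC.one_le v) hB
      (hx i (Finset.mem_insert_self i s))
      (hC' v x B hB fun k hk => hx k (Finset.mem_insert_of_mem hk))

/-- NUL, with `0 ≤ B` -/
theorem nul' (K : Type) [Field K] [NumberField K] (τ ι : Type) [Finite τ] [Finite ι]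
    (f : ι → MvPolynomial τ K) (g : MvPolynomial τ K)
    (h : ∀ z : τ → AlgebraicClosure K, (∀ i, aeval z (f i) = 0) → aeval z g = 0)
    (R : AbsoluteValue K ℝ → ℝ) (hR : Cst R) :
      ∃ (E : ℕ) (C : AbsoluteValue K ℝ → ℝ), Cst C ∧
        ∀ v : AbsoluteValue K ℝ, (v ∈ archAbsVal (K := K) ∨ v ∈ nonarchAbsVal (K := K)) →
          ∀ (z : τ → K) (B : ℝ), 0 ≤ B → (∀ j, v (z j) ≤ R v) → (∀ i, v (eval z (f i)) ≤ B) →
            v (eval z g) ^ E ≤ C v * B := by
  classical
  obtain ⟨_⟩ := nonempty_fintype ι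
  have hrad : g ∈ (Ideal.span (Set.range f)).radical := by
    rw [← vanishingIdeal_zeroLocus_eq_radical (K := AlgebraicClosure K), mem_vanishingIdeal_iff]
    intro z hz
    rw [zeroLocus_span] at hz
    exact h z fun i => hz (f i) ⟨i, rfl⟩
  obtain ⟨E, hE⟩ := hrad
  obtain ⟨q, hq⟩ := Ideal.mem_span_range_iff_exists_fun.1 hE
  choose A hA hA' using fun i => poly_bd hR (q i)
  obtain ⟨C, hC, hC'⟩ := sum_bd Finset.univ A hA
  refine ⟨E, C, hC, fun v _ z B hB hz hf => ?_⟩
  have h1 : eval z g ^ E = ∑ i, eval z (q i) * eval z (f i) := by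
    rw [← map_pow, ← hq, map_sum]
    simp only [map_mul]
  rw [← map_pow, h1]
  refine hC' v _ B hB fun i _ => ?_
  rw [map_mul]
  exact mul_le_mul (hA' i v z hz) (hf i) (v.nonneg _) (zero_le_one.trans ((hA i).one_le v))

end Pool.Agent.H65.TK
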